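import Pool.Agent.H37.UMD.Stmts

/-!
Ultimate matching, module MZK: measurability and bounds of the partition function.
-/

set_option autoImplicit false

open MeasureTheory ProbabilityTheory

namespace Pool.UMD

lemma MZK_int {f : (ℝ × ℝ) × ℝ → ℝ} (hf : Measurable f) {C : ℝ}
    (h : ∀ a g, 1 ≤ f (a, g) ∧ f (a, g) ≤ C) :
    Measurable (fun a => ∫ g, f (a, g) ∂g1) ∧
      ∀ a, 1 ≤ ∫ g, f (a, g) ∂g1 ∧ ∫ g, f (a, g) ∂g1 ≤ C := by
  refine ⟨(hf.stronglyMeasurable.integral_prod_right').measurable, fun a => ?_⟩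
  have hm : Measurable (fun g => f (a, g)) := hf.comp (measurable_const.prodMk measurable_id)
  have hi : Integrable (fun g => f (a, g)) g1 := by
    refine Integrable.of_bound hm.aestronglyMeasurable C (ae_of_all _ fun g => ?_)
    rw [Real.norm_eq_abs, abs_of_nonneg (by linarith [(h a g).1])]
    exact (h a g).2
  constructor
  · have := integral_mono (μ := g1) (integrable_const (1 : ℝ)) hi (fun g => (h a g).1)
    simpa using this
  · have := integral_mono (μ := g1) hi (integrable_const C) (fun g => (h a g).2)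
    simpa using this

/-- MZK: measurability and bounds of the partition function. -/
theorem mzk (hMEU : SMeu) : SMzk := by
  intro W M hW D hD Λ Cv hCv k
  induction k with
  | zero =>
    intro A
    refine ⟨measurable_const, 1, fun a => ⟨le_rfl, le_rfl⟩⟩
  | succ k ih =>
    intro A
    choose C hC using fun e : ℝ × ℝ => (hMEU W M hW A e Λ Cv hCv).2
    choose C' hC' using fun e : ℝ × ℝ => (ih (A.con e)).2
    have h1 := fun e : ℝ × ℝ => MZK_int (hMEU W M hW A e Λ Cv hCv).1 (hC e)
    have hm2 : ∀ e : ℝ × ℝ, Measurable (fun q : (ℝ × ℝ) × ℝ => eU Λ Cv W q.1 A e q.2 *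
        Zk D Λ Cv W k (q.1 + q.2 • A.stp e) (A.con e)) := by
      intro e
      refine (hMEU W M hW A e Λ Cv hCv).1.mul ?_
      have h3 : Measurable (fun q : (ℝ × ℝ) × ℝ => q.1 + q.2 • A.stp e) := by fun_prop
      exact (ih (A.con e)).1.comp h3
    have h2 := fun e : ℝ × ℝ => MZK_int (hm2 e) (C := C e * C' e) (fun a g => by
      have h3 := hC e a g
      have h4 := hC' e (a + g • A.stp e)
      constructor
      · nlinarith [h3.1, h4.1]
      · exact mul_le_mul h3.2 h4.2 (by linarith [h4.1]) (by linarith [h3.1, h3.2]))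
    constructor
    · show Measurable (fun a => ∑ e ∈ D, (∫ g, eU Λ Cv W a A e g ∂g1) *
        (∫ g, eU Λ Cv W a A e g * Zk D Λ Cv W k (a + g • A.stp e) (A.con e) ∂g1))
      refine Finset.measurable_fun_sum D fun e _ => (h1 e).1.mul (h2 e).1
    · refine ⟨∑ e ∈ D, C e * (C e * C' e), fun a => ?_⟩
      show 1 ≤ ∑ e ∈ D, (∫ g, eU Λ Cv W a A e g ∂g1) *
        (∫ g, eU Λ Cv W a A e g * Zk D Λ Cv W k (a + g • A.stp e) (A.con e) ∂g1) ∧
        ∑ e ∈ D, (∫ g, eU Λ Cv W a A e g ∂g1) *
        (∫ g, eU Λ Cv W a A e g * Zk D Λ Cv W k (a + g • A.stp e) (A.con e) ∂g1) ≤ _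
      have h5 : ∀ e, 1 ≤ (∫ g, eU Λ Cv W a A e g ∂g1) *
          (∫ g, eU Λ Cv W a A e g * Zk D Λ Cv W k (a + g • A.stp e) (A.con e) ∂g1) := by
        intro e
        have h6 := ((h1 e).2 a).1
        have h7 := ((h2 e).2 a).1
        simp only at h6 h7
        nlinarith
      constructor
      · obtain ⟨e, he⟩ := hD
        refine (h5 e).trans ?_
        exact Finset.single_le_sum (f := fun e => (∫ g, eU Λ Cv W a A e g ∂g1) *
          (∫ g, eU Λ Cv W a A e g * Zk D Λ Cv W k (a + g • A.stp e) (A.con e) ∂g1))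
          (fun e _ => by linarith [h5 e]) he
      · refine Finset.sum_le_sum fun e _ => ?_
        have h6 := (h1 e).2 a
        have h7 := (h2 e).2 a
        simp only at h6 h7
        exact mul_le_mul h6.2 h7.2 (by linarith [h7.1]) (by linarith [h6.1, h6.2])

end Pool.UMD
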